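import Mathlib

set_option autoImplicit false
open Finset

namespace Pool.Agent.Results.MP_d064d6_lc.NotConvex

/-- The antiferromagnetic Potts interaction matrix: `β` on the diagonal, `1` elsewhere. -/
noncomputable def A {q : ℕ} (β : ℝ) (c b : Fin q) : ℝ := if c = b then β else 1

/-- `G_c(μ) = E_{τ ∼ μ} ∏_i A_{c, τ(i)}` for a measure `μ` on `[q]^d` given by its weights. -/
noncomputable def G {q d : ℕ} (β : ℝ) (μ : (Fin d → Fin q) → ℝ) (c : Fin q) : ℝ :=
  ∑ τ : Fin d → Fin q, μ τ * ∏ i, A β c (τ i)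

/-- The belief-propagation map `F_A(μ) = G(μ) / ∑_c G_c(μ)`. -/
noncomputable def F {q d : ℕ} (β : ℝ) (μ : (Fin d → Fin q) → ℝ) (c : Fin q) : ℝ :=
  G β μ c / ∑ b, G β μ b

/-- The image of the product measures `p_1 ⊗ ... ⊗ p_d` under the belief-propagation map. -/
def Fprod (q d : ℕ) (β : ℝ) : Set (Fin q → ℝ) :=
  {x | ∃ p : Fin d → Fin q → ℝ, (∀ i, p i ∈ stdSimplex ℝ (Fin q)) ∧
    x = F β (fun τ : Fin d → Fin q => ∏ i, p i (τ i))}

lemma G_prod {q d : ℕ} (β : ℝ) (p : Fin d → Fin q → ℝ) (hp : ∀ i, p i ∈ stdSimplex ℝ (Fin q))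
    (c : Fin q) :
    G β (fun τ : Fin d → Fin q => ∏ i, p i (τ i)) c = ∏ i, (1 - (1 - β) * p i c) := by
  unfold G
  have h1 : ∀ i, 1 - (1 - β) * p i c = ∑ b, p i b * A β c b := by
    intro i
    have h2 : ∀ b, p i b * A β c b = p i b - (if c = b then (1 - β) * p i b else 0) := by
      intro b; unfold A; split_ifs <;> ring
    simp only [h2, Finset.sum_sub_distrib, (hp i).2, Finset.sum_ite_eq, Finset.mem_univ, if_true]
  simp only [h1]
  rw [Finset.prod_univ_sum, Fintype.piFinset_univ]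
  exact Finset.sum_congr rfl fun τ _ => by rw [Finset.prod_mul_distrib]

lemma mem_of (β : ℝ) (a b : Fin 4) :
    (fun c : Fin 4 => (1 - (1 - β) * (Pi.single a (1 : ℝ) : Fin 4 → ℝ) c) *
      (1 - (1 - β) * (Pi.single b (1 : ℝ) : Fin 4 → ℝ) c) /
      ∑ e : Fin 4, (1 - (1 - β) * (Pi.single a (1 : ℝ) : Fin 4 → ℝ) e) *
        (1 - (1 - β) * (Pi.single b (1 : ℝ) : Fin 4 → ℝ) e)) ∈ Fprod 4 2 β := by
  have hp : ∀ i : Fin 2, (![Pi.single a (1 : ℝ), Pi.single b 1] : Fin 2 → Fin 4 → ℝ) i ∈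
      stdSimplex ℝ (Fin 4) := by
    intro i
    fin_cases i
    · exact single_mem_stdSimplex ℝ a
    · exact single_mem_stdSimplex ℝ b
  refine ⟨_, hp, ?_⟩
  funext c
  unfold F
  simp only [G_prod β _ hp]
  simp only [Fin.prod_univ_two]
  rfl

/-- For four colours, two children and every `β` in `[0, 1)` (the whole range of the conjecture
except the trivial value `β = 1`), the image of the product measures is not convex. -/
theorem result : ∀ β : ℝ, max 0 (1 - (4 : ℝ) / ((2 : ℝ) + 1)) ≤ β → β < 1 →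
    ¬ Convex ℝ (Fprod 4 2 β) := by
  intro β hβ hβ1 hc
  have h0 : 0 ≤ β := (le_max_left _ _).trans hβ
  have hz : (2 + 2 * β) ≠ 0 := by positivity
  have m1 : (![β, β, 1, 1] / (fun _ => 2 + 2 * β) : Fin 4 → ℝ) ∈ Fprod 4 2 β := by
    convert mem_of β 0 1 using 1
    funext c
    fin_cases c <;> simp [Fin.sum_univ_four] <;> ring
  have m2 : (![β, 1, β, 1] / (fun _ => 2 + 2 * β) : Fin 4 → ℝ) ∈ Fprod 4 2 β := by
    convert mem_of β 0 2 using 1
    funext c
    fin_cases c <;> simp [Fin.sum_univ_four] <;> ring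
  have m3 : (![1, β, β, 1] / (fun _ => 2 + 2 * β) : Fin 4 → ℝ) ∈ Fprod 4 2 β := by
    convert mem_of β 1 2 using 1
    funext c
    fin_cases c <;> simp [Fin.sum_univ_four] <;> ring
  have m4 := hc m1 m2 (a := 1 / 2) (b := 1 / 2) (by norm_num) (by norm_num) (by norm_num)
  have m5 := hc m4 m3 (a := 2 / 3) (b := 1 / 3) (by norm_num) (by norm_num) (by norm_num)
  obtain ⟨p, hp, hx⟩ := m5
  have e0 := congrFun hx 0
  have e1 := congrFun hx 1
  have e2 := congrFun hx 2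
  have e3 := congrFun hx 3
  unfold F at e0 e1 e2 e3
  simp only [G_prod β _ hp] at e0 e1 e2 e3
  simp only [Fin.prod_univ_two] at e0 e1 e2 e3
  generalize (∑ b : Fin 4, (1 - (1 - β) * p 0 b) * (1 - (1 - β) * p 1 b)) = Z at e0 e1 e2 e3
  have v0 : (1 + 2 * β) / (3 * (2 + 2 * β)) =
      (1 - (1 - β) * p 0 0) * (1 - (1 - β) * p 1 0) / Z := by
    rw [← e0]; simp; field_simp; ring
  have v1 : (1 + 2 * β) / (3 * (2 + 2 * β)) =
      (1 - (1 - β) * p 0 1) * (1 - (1 - β) * p 1 1) / Z := by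
    rw [← e1]; simp; field_simp; ring
  have v2 : (1 + 2 * β) / (3 * (2 + 2 * β)) =
      (1 - (1 - β) * p 0 2) * (1 - (1 - β) * p 1 2) / Z := by
    rw [← e2]; simp; field_simp; ring
  have v3 : 1 / (2 + 2 * β) = (1 - (1 - β) * p 0 3) * (1 - (1 - β) * p 1 3) / Z := by
    rw [← e3]; simp; field_simp; ring
  clear e0 e1 e2 e3 hx
  have hZ : Z ≠ 0 := by
    rintro rfl
    rw [div_zero] at v3
    have : 0 < 1 / (2 + 2 * β) := by positivity
    linarith
  rw [eq_div_iff hZ] at v0 v1 v2 v3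
  have hs0 := (hp 0).2
  have hs1 := (hp 1).2
  rw [Fin.sum_univ_four] at hs0 hs1
  have a0 := (hp 0).1 0
  have a1 := (hp 0).1 1
  have a2 := (hp 0).1 2
  have a3 := (hp 0).1 3
  have b0 := (hp 1).1 0
  have b1 := (hp 1).1 1
  have b2 := (hp 1).1 2
  have b3 := (hp 1).1 3
  generalize p 0 0 = x0 at *
  generalize p 0 1 = x1 at *
  generalize p 0 2 = x2 at *
  generalize p 0 3 = x3 at *
  generalize p 1 0 = y0 at *
  generalize p 1 1 = y1 at *
  generalize p 1 2 = y2 at *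
  generalize p 1 3 = y3 at *
  obtain ⟨w, hw⟩ : ∃ w, w = 1 - β := ⟨_, rfl⟩
  have hw0 : 0 < w := by linarith
  have hw1 : w ≤ 1 := by linarith
  rw [← hw] at v0 v1 v2 v3
  have f0 : 3 * ((1 - w * x0) * (1 - w * y0)) = (1 + 2 * β) * ((1 - w * x3) * (1 - w * y3)) := by
    rw [← v0, ← v3]; field_simp
  have f1 : (1 - w * x1) * (1 - w * y1) = (1 - w * x0) * (1 - w * y0) := v1.symm.trans v0
  have f2 : (1 - w * x2) * (1 - w * y2) = (1 - w * x0) * (1 - w * y0) := v2.symm.trans v0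
  have g3 : (1 - w * x3) * (1 - w * y3) ≤ 1 := by
    apply mul_le_one₀
    · nlinarith
    · nlinarith
    · nlinarith
  have key : w * (x3 + y3) + w ^ 2 * (x0 * y0 + x1 * y1 + x2 * y2) ≤ 0 := by
    have : (1 - w * x0) * (1 - w * y0) + (1 - w * x1) * (1 - w * y1) + (1 - w * x2) * (1 - w * y2)
        = 1 + 2 * β + (w * (x3 + y3) + w ^ 2 * (x0 * y0 + x1 * y1 + x2 * y2)) := by
      have hb : β = 1 - w := by linarith
      rw [hb]
      linear_combination (-w) * hs0 + (-w) * hs1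
    nlinarith
  have p0 := mul_nonneg a0 b0
  have p1 := mul_nonneg a1 b1
  have p2 := mul_nonneg a2 b2
  have hw2 : 0 < w ^ 2 := by positivity
  have k1 : x3 + y3 = 0 := by
    have := mul_nonneg hw2.le (add_nonneg (add_nonneg p0 p1) p2)
    have h3 : w * (x3 + y3) ≤ 0 := by linarith
    have h4 : x3 + y3 ≤ 0 := by
      by_contra h
      have := mul_pos hw0 (not_le.1 h)
      linarith
    linarith
  have k2 : x0 * y0 + x1 * y1 + x2 * y2 ≤ 0 := by
    by_contra h
    have := mul_pos hw2 (not_le.1 h)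
    rw [k1] at key
    linarith
  have q0 : x0 * y0 = 0 := by linarith
  have q1 : x1 * y1 = 0 := by linarith
  have q2 : x2 * y2 = 0 := by linarith
  have r1 : x1 + y1 = x0 + y0 := by
    apply mul_left_cancel₀ hw0.ne'
    linear_combination -f1 + w ^ 2 * q1 - w ^ 2 * q0
  have r2 : x2 + y2 = x0 + y0 := by
    apply mul_left_cancel₀ hw0.ne'
    linear_combination -f2 + w ^ 2 * q2 - w ^ 2 * q0
  rcases mul_eq_zero.1 q0 with h0 | h0 <;> rcases mul_eq_zero.1 q1 with h1 | h1 <;>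
    rcases mul_eq_zero.1 q2 with h2 | h2 <;> linarith

end Pool.Agent.Results.MP_d064d6_lc.NotConvex
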